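import Pool.Agent.H66.GUA.Targets
import Pool.Agent.H3.DPD.SQ

/-!
# DL: dilation by `p`
-/

set_option autoImplicit false

open Finset

namespace Pool.Agent.H11.GUA

open Pool.Agent.H31.DP Pool.Agent.H31.DPD Pool.Agent.H66.GUA
open Pool.Agent.H91.LF (lz)
open Pool.Agent.H24.T2 (Pset box cub)
open Pool.Agent.H33.DP (sq_FF)
open Pool.Agent.H3.DPD (sq_sI sq_le sq_one)

lemma dl_GC {l d : ℕ} (h : Fin l → ℕ) {p : ℕ} (hp : p.Prime) (s : Fin d → ℤ) (y : ℤ) :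
    GC h p (sm p s) ((p : ℤ) * y) = ((-1) ^ l) ^ (2 ^ d) * GC h 1 s y := by
  unfold GC
  have h1 : ∀ I : Finset (Fin d), FF h p ((p : ℤ) * y + sI (sm p s) I) =
      (-1) ^ l * FF h 1 (y + sI s I) := by
    intro I
    have h2 : sI (sm p s) I = (p : ℤ) * sI s I := sq_sI (p : ℤ) s I
    rw [h2, ← mul_add, sq_FF h hp]
  rw [Finset.prod_congr rfl (fun I _ => h1 I), Finset.prod_mul_distrib, Finset.prod_const,
    Finset.card_univ, Fintype.card_finset, Fintype.card_fin]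

lemma dl_IC {d : ℕ} {p M : ℕ} (hp : 0 < p) (s : Fin d → ℤ) (y : ℤ) :
    (p : ℤ) * y ∈ IC M (sm p s) ↔ y ∈ IC (M / p) s := by
  unfold IC
  simp only [Finset.mem_filter, Finset.mem_Icc]
  rw [sq_one hp, sq_le hp]
  refine and_congr_right fun _ => forall_congr' fun I => ?_
  have h2 : sI (sm p s) I = (p : ℤ) * sI s I := sq_sI (p : ℤ) s I
  rw [h2, ← mul_add, sq_one hp, sq_le hp]

theorem pf_DL : T_DL := by
  intro d l h p M s θ hp
  have hp0 : 0 < p := hp.pos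
  have hpZ : (p : ℤ) ≠ 0 := by exact_mod_cast hp0.ne'
  have hpR : (p : ℝ) ≠ 0 := by exact_mod_cast hp0.ne'
  have key : ∑ y ∈ (IC M (sm p s)).filter (fun y => (p : ℤ) ∣ y),
      ((GC h p (sm p s) y : ℝ) : ℂ) * ee (y * (θ / p)) =
      ((((-1 : ℝ) ^ l) ^ (2 ^ d) : ℝ) : ℂ) * hs h (M / p) s θ := by
    unfold hs
    rw [Finset.mul_sum]
    refine Finset.sum_bij' (fun y _ => y / (p : ℤ)) (fun n _ => (p : ℤ) * n) ?_ ?_ ?_ ?_ ?_
    · intro y hy
      obtain ⟨h1, n, rfl⟩ := Finset.mem_filter.1 hy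
      rw [Int.mul_ediv_cancel_left _ hpZ]
      exact (dl_IC hp0 s n).1 h1
    · intro n hn
      exact Finset.mem_filter.2 ⟨(dl_IC hp0 s n).2 hn, Dvd.intro _ rfl⟩
    · intro y hy
      obtain ⟨h1, n, rfl⟩ := Finset.mem_filter.1 hy
      rw [Int.mul_ediv_cancel_left _ hpZ]
    · intro n hn
      rw [Int.mul_ediv_cancel_left _ hpZ]
    · intro y hy
      obtain ⟨h1, n, rfl⟩ := Finset.mem_filter.1 hy
      rw [Int.mul_ediv_cancel_left _ hpZ, dl_GC h hp]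
      have h3 : (((p : ℤ) * n : ℤ) : ℝ) * (θ / p) = n * θ := by
        push_cast
        field_simp
      rw [h3]
      push_cast
      ring
  rw [key, norm_mul]
  have h4 : ‖((((-1 : ℝ) ^ l) ^ (2 ^ d) : ℝ) : ℂ)‖ = 1 := by
    rw [Complex.norm_real]
    simp
  rw [h4, one_mul]

end Pool.Agent.H11.GUA
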